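import Pool.Agent.Lib.MP_70d3b5_lc.Real.Final

/-!
# A monotone language in NP that is hard on average for circuits with monotone real gates and few
# arbitrary gates

The definitions of the circuit model are in `Pool/Agent/Lib/MP_70d3b5_lc/Real/Defs.lean`, the
definitions of NP, NEXP and of monotone languages in `Pool/Agent/Lib/MP_70d3b5_lc/Defs.lean`.

There is a language in NP (so in NEXP), all of whose slices are monotone, which is hard on average
for circuits of polynomial size with gates that compute arbitrary nondecreasing functions of two
real numbers and free gates that compute arbitrary functions of arbitrarily many bits read from the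
wires, as long as `(F / d + 1) ^ d` is smaller than `n / polylog n`, where `F` is the total number
of bits read by the arbitrary gates and `d` is their nesting depth.
For NOT gates (`d = F = ` number of NOT gates) this is `2 ^ F`.
-/

open Pool.Agent.Lib.MP_70d3b5_lc.Real
open Pool.Agent.Lib.MP_70d3b5_lc (InNP InNEXP Monotonic Lang lang_inNP lang_inNEXP lang_monotonic)

namespace Pool.Agent.Results.MP_70d3b5_lc.RealGates

/-- There is a language in NP, hence in NEXP, all of whose slices are monotone, with the following
two properties.

For all `n ≥ 1` and `w` with `n < 2 ^ w` there is a probability distribution on the inputs of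
length `n` such that every circuit whose wires carry real numbers, with at most `2 ^ w` gates that
compute arbitrary nondecreasing functions of two wires, any number of gates that compute the
maximum of two wires and any arbitrary gates, which compute arbitrary functions of bits of the
form: wire `i` is at least `t`, is correct with probability at most
`1 / 2 + 8000 * B * w ^ 3 * (log₂ n + 1) ^ 2 / n`, where `B` is any of the following: `A + 1`, if
the bits read by the arbitrary gates change at most `A` times along every increasing chain of
inputs; the number of different values of (all) the bits read by the arbitrary gates; or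
`(F / d + 1) ^ d`, if the arbitrary gates have nesting depth at most `d` and read `F` bits in
total.

For every `k` there is a constant `C` such that every circuit with at most `n ^ k + k`
nondecreasing gates (other than maximum gates) that decides the language at length `n ≥ 2`
satisfies `n ≤ C * (F / d + 1) ^ d * (log₂ n) ^ 5`. -/
theorem result : ∃ L : Set (List Bool), InNP L ∧ InNEXP L ∧ Monotonic L ∧
    (∀ n w : ℕ, 1 ≤ n → n < 2 ^ w →
      ∃ D : (Fin n → Bool) → ℝ, (∀ x, 0 ≤ D x) ∧ ∑ x, D x = 1 ∧
        ∀ (gs : List Gate) (out : ℕ), mons gs ≤ 2 ^ w →
          (∀ A : ℕ, AltLe n gs A → success L D gs out ≤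
            1 / 2 + 8000 * (A + 1) * w ^ 3 * (Nat.log 2 n + 1) ^ 2 / n) ∧
          (success L D gs out ≤
            1 / 2 + 8000 * (traces n gs).card * w ^ 3 * (Nat.log 2 n + 1) ^ 2 / n) ∧
          ∀ d : ℕ, 1 ≤ d → depth n gs ≤ d → success L D gs out ≤
            1 / 2 + 8000 * (fan gs / d + 1) ^ d * w ^ 3 * (Nat.log 2 n + 1) ^ 2 / n) ∧
    ∀ k : ℕ, ∃ C : ℝ, ∀ (n : ℕ) (gs : List Gate) (out d : ℕ), 2 ≤ n →
      (∀ x : List Bool, x.length = n → Correct L gs out x) → mons gs ≤ n ^ k + k → 1 ≤ d →
      depth n gs ≤ d → (n : ℝ) ≤ C * (fan gs / d + 1) ^ d * Real.logb 2 n ^ 5 :=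
  ⟨Lang, lang_inNP, lang_inNEXP, lang_monotonic, fun _ _ hn hw => exists_dist' hn hw,
    worst_case⟩

end Pool.Agent.Results.MP_70d3b5_lc.RealGates
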