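import Pool.Agent.Lib.SRO.Bol
import Pool.Agent.Lib.SRO.Cls
import Pool.Agent.Lib.SRO.Ent
import Pool.Agent.Lib.SRO.Core
import Pool.Agent.Lib.SRO.Seed
import Pool.Agent.Lib.SRO.Flip
import Pool.Agent.Lib.SRO.Lang
import Pool.Agent.Lib.SRO.Num
import Pool.Agent.Lib.SRO.TM
import Pool.Agent.Lib.SRO2.Main
import Pool.Agent.Lib.SRO2.Pieces
import Pool.Agent.Lib.SRO2.Mix
import Pool.Agent.Lib.SRO2.Count
import Pool.Agent.Lib.SRO2.Group
import Pool.Agent.Lib.SRO2.Ext
import Pool.Agent.Lib.SRO2.Time

/-!
MP_70d3b5_lc: a language in P (hence in NP and in NEXP) that has no AND / OR circuits with literals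
of size `2 ^ (c n)` in which accepted inputs have almost read-once proof trees.  Nondeterministic
branching programs are a special case: there are no Boolean nondeterministic semantic read-once
branching programs of that size for the language.
-/

namespace Pool.Agent.Results.MP_70d3b5_lc.SemanticReadOnce

open Pool.Agent.Lib.SRO Pool.Agent.Lib.SRO2 Pool.Agent.Lib.MP_70d3b5_lc

/-- There is a language `L` in P, in NP and in NEXP and a constant `c > 0` such that, for all large
`N` and with `n = dim N` the largest number with `n + n ^ 4 ≤ N`: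
* at least one eighth of the strings of length `N` are in `L`;
* if an alternating branching program (for instance an AND / OR circuit with literals, or a
  nondeterministic branching program) with at most `2 ^ (c n)` nodes accepts only members of `L`,
  then it accepts at most `2 ^ (N - c n)` strings by accepting trees in which at most `c n` of the
  first `n` variables are tested more than once (these, and the other variables, may be tested
  arbitrarily often), and at most `2 ^ (N - c n)` strings by accepting trees with at most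
  `(1 + c) n` tests of the first `n` variables;
* every semantic read-once alternating branching program for `L` on strings of length `N` has
  at least `2 ^ (c N ^ (1 / 4))` nodes. -/
theorem result :
    ∃ L : Set (List Bool), InP L ∧ InNP L ∧ InNEXP L ∧
      ∃ c : ℝ, 0 < c ∧ ∃ N₀ : ℕ, ∀ N : ℕ, N₀ ≤ N →
        2 ^ N ≤ 8 * Nat.card {y : Fin N → Bool // List.ofFn y ∈ L} ∧
        (∀ (V : Type) [Fintype V] (P : Prog (Fin N) V),
          (Fintype.card V : ℝ) ≤ 2 ^ (c * dim N) → (∀ y, P.Accepts y → List.ofFn y ∈ L) →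
            (∀ k : ℕ, (k : ℝ) ≤ c * dim N →
              (Nat.card {y : Fin N → Bool //
                P.AcceptsFew (Finset.univ.filter fun i : Fin N => (i : ℕ) < dim N) k y} : ℝ) ≤
                2 ^ ((N : ℝ) - c * dim N)) ∧
            (∀ T : ℕ, (T : ℝ) ≤ (1 + c) * dim N →
              (Nat.card {y : Fin N → Bool //
                P.AcceptsWithin (Finset.univ.filter fun i : Fin N => (i : ℕ) < dim N) T y} : ℝ) ≤
                2 ^ ((N : ℝ) - c * dim N))) ∧
        (∀ (V : Type) [Fintype V] (P : Prog (Fin N) V),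
          (∀ y, P.Accepts y ↔ List.ofFn y ∈ L) → P.ReadOnce →
            2 ^ (c * (N : ℝ) ^ (1 / 4 : ℝ)) ≤ (Fintype.card V : ℝ)) := by
  obtain ⟨hP, hNP, hNEXP⟩ := stTM
  have hM : StMain2 := stMain2 (stExt2 stDer stPieces stMix stCount stGroup)
    (stCore stBol stCls stEnt) stFlip stLang (stSplit stSeed) stNum
  obtain ⟨c₁, hc₁, N₁, h₁⟩ := id hM
  obtain ⟨c₂, hc₂, N₂, h₂⟩ := stOnce2 hM stDens
  refine ⟨Quartic, hP, hNP, hNEXP, min c₁ c₂, lt_min hc₁ hc₂, max (max N₁ N₂) 18, fun N hN => ?_⟩
  have hN₁ : N₁ ≤ N := (le_max_left _ _).trans ((le_max_left _ _).trans hN)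
  have hN₂ : N₂ ≤ N := (le_max_right _ _).trans ((le_max_left _ _).trans hN)
  have hN18 : 18 ≤ N := (le_max_right _ _).trans hN
  have hn : (0 : ℝ) ≤ dim N := Nat.cast_nonneg _
  have hcn : min c₁ c₂ * dim N ≤ c₁ * dim N := mul_le_mul_of_nonneg_right (min_le_left _ _) hn
  have key : ∀ (V : Type) [Fintype V] (P : Prog (Fin N) V),
      (Fintype.card V : ℝ) ≤ 2 ^ (min c₁ c₂ * dim N) →
      (∀ y, P.Accepts y → List.ofFn y ∈ Quartic) → ∀ k : ℕ, (k : ℝ) ≤ min c₁ c₂ * dim N →
        (Nat.card {y : Fin N → Bool //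
          P.AcceptsFew (Finset.univ.filter fun i : Fin N => (i : ℕ) < dim N) k y} : ℝ) ≤
          2 ^ ((N : ℝ) - min c₁ c₂ * dim N) := by
    intro V _ P hV hP k hk
    have hV' : (Fintype.card V : ℝ) ≤ 2 ^ (c₁ * dim N) :=
      hV.trans (Real.rpow_le_rpow_of_exponent_le (by norm_num) hcn)
    refine (h₁ N hN₁ V P hV' hP k (hk.trans hcn)).trans ?_
    refine Real.rpow_le_rpow_of_exponent_le (by norm_num) ?_
    linarith
  refine ⟨stDens N (Main_.le_dim (by omega)), fun V _ P hV hP => ⟨key V P hV hP, ?_⟩,
    fun V _ P hP hR => ?_⟩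
  · intro T hT
    have hk : ((T - dim N : ℕ) : ℝ) ≤ min c₁ c₂ * dim N := by
      rcases le_total T (dim N) with h | h
      · rw [Nat.sub_eq_zero_of_le h, Nat.cast_zero]
        exact mul_nonneg (lt_min hc₁ hc₂).le hn
      · rw [Nat.cast_sub h]
        linarith
    refine le_trans ?_ (key V P hV hP (T - dim N) hk)
    have hle : Nat.card {y : Fin N → Bool //
        P.AcceptsWithin (Finset.univ.filter fun i : Fin N => (i : ℕ) < dim N) T y} ≤
        Nat.card {y : Fin N → Bool //
        P.AcceptsFew (Finset.univ.filter fun i : Fin N => (i : ℕ) < dim N) (T - dim N) y} := by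
      refine Nat.card_le_card_of_injective (fun y => ⟨y.1, stTime N T V P hP y.1 y.2⟩) ?_
      intro y y' h
      rw [Subtype.mk.injEq] at h
      exact Subtype.ext h
    exact_mod_cast hle
  · refine le_trans ?_ (h₂ N hN₂ V P hP hR)
    refine Real.rpow_le_rpow_of_exponent_le (by norm_num) ?_
    exact mul_le_mul_of_nonneg_right (min_le_right c₁ c₂) (by positivity)

end Pool.Agent.Results.MP_70d3b5_lc.SemanticReadOnce
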