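import Pool.Agent.Lib.SymCirc.Main
import Pool.Agent.Lib.SymCirc.Group
import Pool.Agent.Lib.SymCirc.Supp
import Pool.Agent.Lib.SymCirc.Gates
import Pool.Agent.Lib.SymCirc.Transfer
import Pool.Agent.Lib.SymCirc.Sat
import Pool.Agent.Lib.SymCirc.NodeLink
import Pool.Agent.Lib.SymCirc.Moves
import Pool.Agent.Lib.SymCirc.NP
import Pool.Agent.Lib.SymCirc.Sym
import Pool.Agent.Lib.SymCirc.Act
import Pool.Agent.Lib.MP_64d474_lc.Circ.Comp
import Pool.Agent.Lib.MP_64d474_lc.Circ.ExpA
import Pool.Agent.Lib.MP_64d474_lc.Circ.ExpB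
import Pool.Agent.Lib.MP_64d474_lc.Circ.ExpC
import Pool.Agent.Lib.MP_64d474_lc.Circ.Expander

/-!
MP_70d3b5_lc: a language in NP (hence in NEXP) that has no circuits of polynomial size which respect
a small group of symmetries of the language; groups of polynomial order are no restriction.
-/

namespace Pool.Agent.Results.MP_70d3b5_lc.SmallSymmetry

open Equiv Pool.Agent.Lib.SymCirc Pool.Agent.Lib.MP_70d3b5_lc Pool.Agent.Lib.MP_64d474_lc.Circ

/-- There is a language `L` in NP and in NEXP, invariant under all block permutations, with: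
for every set `S` of at least `1536 q` blocks, no circuit which is symmetric under the block
permutations of `S` and whose gates have orbits with fewer than `2 ^ q` elements decides `L` on
inputs of length `n`; the block permutations of `S` form a group of order at most `(8!) ^ |S|`.
Conversely, every circuit of size `s` which computes a function invariant under a group `K` can be
made symmetric under `K`, with size `|K| s + 1`. -/
theorem result :
    (∃ L : Set (List Bool), InNP L ∧ InNEXP L ∧
      (∀ n, ∀ σ ∈ blockPerms n Finset.univ, ∀ x : Fin n → Bool,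
        List.ofFn (x ∘ σ) ∈ L ↔ List.ofFn x ∈ L) ∧
      ∀ (n q : ℕ) (S : Finset (Fin (blocks n))), 2 ≤ q → 1536 * q ≤ S.card →
        ∃ x y : Fin n → Bool, List.ofFn x ∈ L ∧ List.ofFn y ∉ L ∧
          ∀ (V : Type) (C : Circuit (Fin n) Bool V), C.SymmetricUnder (blockPerms n S) →
            (∀ g, (C.orbit (blockPerms n S) g).Finite ∧
              (C.orbit (blockPerms n S) g).ncard < 2 ^ q) →
            C.val x C.out = C.val y C.out) ∧
    (∀ (n : ℕ) (S : Finset (Fin (blocks n))),
      ∃ K : Subgroup (Perm (Fin n)), (K : Set (Perm (Fin n))) = blockPerms n S ∧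
        Nat.card K ≤ 40320 ^ S.card) ∧
    (∀ (n : ℕ) (K : Subgroup (Perm (Fin n))) (B : Set (Multiset Bool → Bool))
      (C : Circuit (Fin n) Bool Bool), orOp ∈ B → C.Over B → Finite C.G →
      (∀ σ ∈ K, ∀ x, C.val (x ∘ σ) C.out = C.val x C.out) →
      ∃ C' : Circuit (Fin n) Bool Bool, C'.Over B ∧ C'.SymmetricUnder K ∧ Finite C'.G ∧
        Nat.card C'.G = Nat.card K * Nat.card C.G + 1 ∧ ∀ x, C'.val x C'.out = C.val x C.out) := by
  refine ⟨main_of (stExpander stExpA stExpB stExpC) stComp stSat stUnsat
    (stMoves stNodeMove stLinkMove) (stTransfer (stGate stSupp)) stLang stAct stNP,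
    group_of stAct, ?_⟩
  intro n K B C hB hC hfin hK
  have hidem : ∀ (m : Multiset Bool) (v : Bool), m ≠ 0 → (∀ u ∈ m, u = v) → orOp m = v := by
    intro m v hm hv
    unfold orOp
    obtain ⟨u, hu⟩ := Multiset.exists_mem_of_ne_zero hm
    have huv := hv u hu
    subst huv
    cases u with
    | true => simpa using hu
    | false =>
      simp only [decide_eq_false_iff_not]
      intro h
      exact absurd (hv true h) (by decide)
  obtain ⟨C', h1, h2, h3, h4⟩ := stSym (Fin n) Bool Bool K B orOp C hB hidem hC hK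
  exact ⟨C', h1, h2, (h3 hfin).1, (h3 hfin).2, h4⟩

end Pool.Agent.Results.MP_70d3b5_lc.SmallSymmetry
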