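import Pool.Agent.Lib.MP_70d3b5_lc.Real.UniformMain

/-!
# A monotone language in NP that is hard on average for the uniform distribution

The definitions of the circuit model are in `Pool/Agent/Lib/MP_70d3b5_lc/Real/Defs.lean`, the
definitions of NP, NEXP and of monotone languages in `Pool/Agent/Lib/MP_70d3b5_lc/Defs.lean`.

There is a language in NP (so in NEXP), all of whose slices are monotone, such that every circuit
with at most `2 ^ ((log₂ n + 1) ^ 2)` gates that compute nondecreasing functions of two real
numbers, and free arbitrary gates, is correct on a fraction of at most
`1 / 2 + (F / d + 1) ^ d * polylog n / √n` of the inputs of length `n`, where `F` is the total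
number of bits read by the arbitrary gates and `d` is their nesting depth.
-/

open Pool.Agent.Lib.MP_70d3b5_lc.Real
open Pool.Agent.Lib.MP_70d3b5_lc (InNP InNEXP Monotonic)

namespace Pool.Agent.Results.MP_70d3b5_lc.UniformDistribution

/-- There is a language `L` in NP, hence in NEXP, all of whose slices are monotone, with the
following property.  Let `n ≥ 1`, and consider a circuit on `n` Boolean inputs whose wires carry
real numbers, with at most `2 ^ ((log₂ n + 1) ^ 2)` gates that compute arbitrary nondecreasing
functions of two wires, any number of gates that compute the maximum of two wires, and any number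
of arbitrary gates, which compute arbitrary functions of bits of the form: wire `i` is at least
`t`.  The fraction of the inputs in `{0, 1} ^ n` on which the circuit is correct for `L` is at most
`1 / 2 + 150000 * B * (log₂ n + 1) ^ 8 / √n`, where `B` is any of the following: `A + 1`, if the
bits read by the arbitrary gates change at most `A` times along every increasing chain of inputs;
the number of different values of (all) the bits read by the arbitrary gates; or
`(F / d + 1) ^ d`, if the arbitrary gates have nesting depth at most `d` and read `F` bits in
total. -/
theorem result : ∃ L : Set (List Bool), InNP L ∧ InNEXP L ∧ Monotonic L ∧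
    ∀ (n : ℕ) (gs : List Gate) (out : ℕ), 1 ≤ n → mons gs ≤ 2 ^ ((Nat.log 2 n + 1) ^ 2) →
      (∀ A : ℕ, AltLe n gs A → agreement L n gs out ≤
        1 / 2 + 150000 * (A + 1) * (Nat.log 2 n + 1) ^ 8 / √n) ∧
      (agreement L n gs out ≤
        1 / 2 + 150000 * (traces n gs).card * (Nat.log 2 n + 1) ^ 8 / √n) ∧
      ∀ d : ℕ, 1 ≤ d → depth n gs ≤ d → agreement L n gs out ≤
        1 / 2 + 150000 * (fan gs / d + 1) ^ d * (Nat.log 2 n + 1) ^ 8 / √n :=
  ⟨LangU, langU_inNP.1, langU_inNP.2, langU_monotonic, fun _ _ _ hn hs => uniform_main hn hs⟩

end Pool.Agent.Results.MP_70d3b5_lc.UniformDistribution
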